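import Mathlib
import Pool.Agent.Helper27.OWN.Ksd

set_option autoImplicit false

namespace Pool.Agent.Results.MP_c67c46_gt.KsdOpenLinearImage

open Topology Pool.Agent.Helper27.OwnKsd

universe u v w

/-- Let `X` and `Y` be Tychonoff spaces, let `X` be a countable intersection of `σ`-compact sets
of some compact Hausdorff space `K` that contains `X` (up to the embedding `e`), and let
`S : C_p(X) → C_p(Y)` be a continuous linear open map (for instance a linear homeomorphism).
Then `Y` is a countable intersection of `σ`-compact sets of its Stone-Cech compactification. -/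
theorem result {X : Type u} {Y : Type v} {K : Type w}
    [TopologicalSpace X] [T35Space X] [TopologicalSpace Y] [T35Space Y]
    [TopologicalSpace K] [CompactSpace K] [T2Space K]
    (e : X → K) (he : IsEmbedding e)
    (A : ℕ → ℕ → Set K) (hA : ∀ n m, IsCompact (A n m))
    (hX : Set.range e = ⋂ n, ⋃ m, A n m)
    (S : continuousSubmodule X ℝ ℝ →L[ℝ] continuousSubmodule Y ℝ ℝ) (hS : IsOpenMap S) :
    ∃ B : ℕ → ℕ → Set (StoneCech Y), (∀ n m, IsCompact (B n m)) ∧
      Set.range (stoneCechUnit : Y → StoneCech Y) = ⋂ n, ⋃ m, B n m :=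
  ksd_of_isOpenMap e he A hA hX S hS

end Pool.Agent.Results.MP_c67c46_gt.KsdOpenLinearImage
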